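import Mathlib
import Pool.Agent.Y959.Sv.Main

set_option autoImplicit false

/-!
# The number of the prime factors `≤ x` of an odd perfect number

For every `ε > 0` there is a `C` such that every odd perfect number `N` has at most
`ε log N / log log N + C x / (log x) ^ 2` prime factors `p ≤ x`, for all `x ≥ 2`.

The primes with an exponent at least `B ≥ 4 / ε` are counted by means of the size of `N`, and the others
by the sieve.
-/

namespace Pool.Agent.Results.MP_f02ea4_nt.PrimeFactorCount
open Finset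
open Pool.Agent.Y959.Opn (Dat dat_of_perfect prod_pow_eq)
open Pool.Agent.Y959.Sv (count_bad)

/-- primes with large exponents -/
lemma good {N : ℕ} (hodd : Odd N) (hperf : N.Perfect) {B : ℕ} {G : Finset ℕ}
    (hG : G ⊆ N.primeFactors) (hB : ∀ p ∈ G, B ≤ N.factorization p) (hB1 : 1 ≤ B)
    (hL : 1 < Real.log N) :
    (G.card : ℝ) ≤ 2 * Real.sqrt (Real.log N) ∨
      (G.card : ℝ) ≤ 4 / B * (Real.log N / Real.log (Real.log N)) := by
  classical
  have hN0 : N ≠ 0 := hperf.2.ne'
  set L := Real.log N with hLdef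
  have hLL : 0 < Real.log L := Real.log_pos hL
  rcases le_total (G.card : ℝ) (2 * Real.sqrt L) with h | h
  · exact Or.inl h
  right
  have hlog : L = ∑ p ∈ N.primeFactors, (N.factorization p : ℝ) * Real.log p := by
    have h1 := prod_pow_eq hN0
    rw [hLdef, ← h1, Real.log_prod (fun p hp => by
      have := (Nat.prime_of_mem_primeFactors hp).pos
      positivity)]
    exact sum_congr rfl (fun p _ => Real.log_pow _ _)
  set s : ℕ := ⌊Real.sqrt L⌋₊ with hs
  have hsle : (s : ℝ) ≤ Real.sqrt L := Nat.floor_le (Real.sqrt_nonneg _)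
  set G' := G.filter (fun p => ¬ p ≤ s) with hG'
  have hsmall : ((G.filter (fun p => p ≤ s)).card : ℝ) ≤ Real.sqrt L := by
    refine le_trans ?_ hsle
    have : G.filter (fun p => p ≤ s) ⊆ Icc 1 s := by
      intro p hp
      obtain ⟨h1, h2⟩ := mem_filter.1 hp
      exact mem_Icc.2 ⟨(Nat.prime_of_mem_primeFactors (hG h1)).pos, h2⟩
    have := card_le_card this
    rw [Nat.card_Icc, Nat.add_sub_cancel] at this
    exact_mod_cast this
  have hsplit : ((G.filter (fun p => p ≤ s)).card : ℝ) + G'.card = G.card := by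
    exact_mod_cast Finset.card_filter_add_card_filter_not (fun p => p ≤ s)
  have hG'card : (G.card : ℝ) / 2 ≤ G'.card := by linarith
  have hlogp : ∀ p ∈ G', Real.log L / 2 ≤ Real.log p := by
    intro p hp
    obtain ⟨h1, h2⟩ := mem_filter.1 hp
    have h3 : s + 1 ≤ p := by omega
    have h4 : Real.sqrt L ≤ p := by
      have h5 := (Nat.lt_floor_add_one (Real.sqrt L)).le
      have h6 : ((s + 1 : ℕ) : ℝ) ≤ p := by exact_mod_cast h3
      push_cast at h6
      linarith
    calc Real.log L / 2 = Real.log (Real.sqrt L) := (Real.log_sqrt (by linarith)).symm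
      _ ≤ Real.log p := Real.log_le_log (Real.sqrt_pos.2 (by linarith)) h4
  have h1 : (G'.card : ℝ) * (B * (Real.log L / 2)) ≤ L := by
    calc (G'.card : ℝ) * (B * (Real.log L / 2)) = ∑ _p ∈ G', (B * (Real.log L / 2) : ℝ) := by
          rw [sum_const, nsmul_eq_mul]
      _ ≤ ∑ p ∈ G', (N.factorization p : ℝ) * Real.log p := by
          apply sum_le_sum
          intro p hp
          have h2 : (B : ℝ) ≤ N.factorization p := by
            exact_mod_cast hB p (mem_filter.1 hp).1
          exact mul_le_mul h2 (hlogp p hp) (by linarith) (Nat.cast_nonneg _)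
      _ ≤ ∑ p ∈ N.primeFactors, (N.factorization p : ℝ) * Real.log p := by
          apply sum_le_sum_of_subset_of_nonneg ((filter_subset _ _).trans hG)
          intro p _ _
          exact mul_nonneg (Nat.cast_nonneg _) (Real.log_natCast_nonneg p)
      _ = L := hlog.symm
  have hBr : (0 : ℝ) < B := by exact_mod_cast hB1
  have h2 : (G.card : ℝ) / 2 * (B * (Real.log L / 2)) ≤ L :=
    (mul_le_mul_of_nonneg_right hG'card (by positivity)).trans h1
  rw [div_mul_div_comm, le_div_iff₀ (by positivity)]
  linarith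

/-- **Main theorem.**  For every `ε > 0` there is a constant `C` such that for every odd perfect number
`N` and every `x ≥ 2` at most `ε log N / log log N + C x / (log x) ^ 2` of the prime factors of `N` are
at most `x`. -/
theorem result (ε : ℝ) (hε : 0 < ε) : ∃ C : ℝ, ∀ N : ℕ, Odd N → N.Perfect → ∀ x : ℕ, 2 ≤ x →
    (({p ∈ N.primeFactors | p ≤ x}.card : ℕ) : ℝ) ≤
      ε * (Real.log N / Real.log (Real.log N)) + C * (x / Real.log x ^ 2) := by
  classical
  set B : ℕ := ⌈4 / ε⌉₊ with hB
  have hBr : 4 / ε ≤ B := Nat.le_ceil _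
  have hB1 : 1 ≤ B := Nat.ceil_pos.2 (by positivity)
  have hB0 : (0 : ℝ) < B := by exact_mod_cast hB1
  obtain ⟨C, hC, hcnt⟩ := count_bad B
  set L0 : ℝ := (8 / ε) ^ 4 with hL0
  have hL00 : 0 ≤ L0 := by positivity
  refine ⟨C + 8 * Real.sqrt L0, fun N hodd hperf x hx => ?_⟩
  have hsum := (Nat.perfect_iff_sum_divisors_eq_two_mul hperf.2).1 hperf
  have hN3 : 3 ≤ N := by
    have h2 := hperf.2
    have h3 : N ≠ 1 := by rintro rfl; simp at hsum
    have h4 : N ≠ 2 := by rintro rfl; exact absurd hodd (by decide)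
    omega
  have hN5 : N ≠ 3 := by
    rintro rfl
    revert hsum
    decide
  have hN4 : (4 : ℝ) ≤ N := by exact_mod_cast (by omega : 4 ≤ N)
  have hL1 : 1 < Real.log N := by
    rw [Real.lt_log_iff_exp_lt (by linarith)]
    exact Real.exp_one_lt_three.trans (by linarith)
  set L := Real.log N with hLdef
  have hLL : 0 < Real.log L := Real.log_pos hL1
  have hx2 : (2 : ℝ) ≤ x := by exact_mod_cast hx
  have hlx : 0 < Real.log x := Real.log_pos (by linarith)
  have hxl : 1 / 4 ≤ (x : ℝ) / Real.log x ^ 2 := by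
    rw [div_le_div_iff₀ (by norm_num) (by positivity)]
    have h1 : Real.log x ≤ (x : ℝ) ^ (1 / 2 : ℝ) / (1 / 2) :=
      Real.log_le_rpow_div (by linarith) (by norm_num)
    have h2 : Real.log x ^ 2 ≤ ((x : ℝ) ^ (1 / 2 : ℝ) / (1 / 2)) ^ 2 :=
      pow_le_pow_left₀ hlx.le h1 2
    have h3 : ((x : ℝ) ^ (1 / 2 : ℝ)) ^ 2 = x := by
      rw [← Real.rpow_natCast, ← Real.rpow_mul (by linarith)]; norm_num
    have h4 : ((x : ℝ) ^ (1 / 2 : ℝ) / (1 / 2)) ^ 2 = 4 * x := by
      rw [div_pow, h3]; ring
    linarith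
  -- the two kinds of primes
  set Sx := {p ∈ N.primeFactors | p ≤ x} with hSx
  set G := Sx.filter (fun p => B < (N.factorization p + 1).minFac) with hG
  have hbad : ((Sx.filter (fun p => ¬ B < (N.factorization p + 1).minFac)).card : ℝ) ≤
      C * (x / Real.log x ^ 2) := by
    refine le_trans ?_ (hcnt N hodd hperf x hx)
    have : Sx.filter (fun p => ¬ B < (N.factorization p + 1).minFac) ⊆
        {p ∈ N.primeFactors | p ≤ x ∧ (N.factorization p + 1).minFac ≤ B} := by
      intro p hp
      obtain ⟨h1, h2⟩ := mem_filter.1 hp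
      obtain ⟨h3, h4⟩ := mem_filter.1 h1
      exact mem_filter.2 ⟨h3, h4, by omega⟩
    exact_mod_cast card_le_card this
  have hsplit : (G.card : ℝ) + (Sx.filter (fun p => ¬ B < (N.factorization p + 1).minFac)).card
      = Sx.card := by
    exact_mod_cast Finset.card_filter_add_card_filter_not
      (fun p => B < (N.factorization p + 1).minFac)
  have hGB : ∀ p ∈ G, B ≤ N.factorization p := by
    intro p hp
    have h1 := (mem_filter.1 hp).2
    have h2 : (N.factorization p + 1).minFac ≤ N.factorization p + 1 := Nat.minFac_le (by omega)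
    omega
  have hgood := good hodd hperf ((filter_subset _ _).trans (filter_subset _ _) : G ⊆ N.primeFactors)
    hGB hB1 hL1
  have hmain : (G.card : ℝ) ≤ ε * (L / Real.log L) + 8 * Real.sqrt L0 * (x / Real.log x ^ 2) := by
    have hpos1 : 0 ≤ ε * (L / Real.log L) := by positivity
    have hpos2 : 0 ≤ 8 * Real.sqrt L0 * (x / Real.log x ^ 2) := by positivity
    rcases hgood with h | h
    · rcases le_total L L0 with h2 | h2
      · have h3 : Real.sqrt L ≤ Real.sqrt L0 := Real.sqrt_le_sqrt h2
        have h4 : 8 * Real.sqrt L0 * (1 / 4) ≤ 8 * Real.sqrt L0 * (x / Real.log x ^ 2) :=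
          mul_le_mul_of_nonneg_left hxl (by positivity)
        linarith
      · -- `2 √ L ≤ ε L / log L`
        have h3 : Real.log L ≤ L ^ (1 / 4 : ℝ) / (1 / 4) :=
          Real.log_le_rpow_div (by linarith) (by norm_num)
        have h4 : 8 / ε ≤ L ^ (1 / 4 : ℝ) := by
          calc 8 / ε = ((8 / ε) ^ 4) ^ (1 / 4 : ℝ) := by
                rw [← Real.rpow_natCast, ← Real.rpow_mul (by positivity)]; norm_num
            _ ≤ _ := Real.rpow_le_rpow hL00 h2 (by norm_num)
        have h5 : L ^ (1 / 4 : ℝ) * L ^ (1 / 4 : ℝ) = Real.sqrt L := by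
          rw [← Real.rpow_add (by linarith), Real.sqrt_eq_rpow]; norm_num
        have h6 : Real.sqrt L * Real.sqrt L = L := Real.mul_self_sqrt (by linarith)
        have h7 : 2 * Real.sqrt L ≤ ε * (L / Real.log L) := by
          rw [← mul_div_assoc, le_div_iff₀ hLL]
          have h8 : 0 ≤ L ^ (1 / 4 : ℝ) := by positivity
          have h9 : 2 * Real.log L ≤ ε * Real.sqrt L := by
            have h10 : 8 ≤ ε * L ^ (1 / 4 : ℝ) := by
              rw [div_le_iff₀ hε] at h4; linarith
            calc 2 * Real.log L ≤ 8 * L ^ (1 / 4 : ℝ) := by linarith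
              _ ≤ (ε * L ^ (1 / 4 : ℝ)) * L ^ (1 / 4 : ℝ) := mul_le_mul_of_nonneg_right h10 h8
              _ = ε * Real.sqrt L := by rw [← h5]; ring
          calc 2 * Real.sqrt L * Real.log L = (2 * Real.log L) * Real.sqrt L := by ring
            _ ≤ (ε * Real.sqrt L) * Real.sqrt L :=
                mul_le_mul_of_nonneg_right h9 (Real.sqrt_nonneg _)
            _ = ε * L := by rw [mul_assoc, h6]
        linarith
    · have h2 : 4 / (B : ℝ) ≤ ε := by
        rw [div_le_iff₀ hB0]
        rw [div_le_iff₀ hε] at hBr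
        linarith
      have h3 : 4 / (B : ℝ) * (L / Real.log L) ≤ ε * (L / Real.log L) :=
        mul_le_mul_of_nonneg_right h2 (by positivity)
      linarith
  have : (Sx.card : ℝ) ≤ ε * (L / Real.log L) + 8 * Real.sqrt L0 * (x / Real.log x ^ 2) +
      C * (x / Real.log x ^ 2) := by linarith
  calc (Sx.card : ℝ) ≤ _ := this
    _ = _ := by ring

end Pool.Agent.Results.MP_f02ea4_nt.PrimeFactorCount
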